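import Pool.Agent.H.MP_dfc2f8_pr.C

namespace Pool.Agent.Results.MP_f1bc00_pr.No
open Filter

/-- D is a dominating set of G -/
def Dom {n : ℕ} (G : SimpleGraph (Fin n)) (D : Finset (Fin n)) : Prop := ∀ v ∉ D, ∃ u ∈ D, G.Adj v u

open Classical in
/-- probability of the event E in G(n,p) -/
noncomputable def Pr (p : ℝ) (n : ℕ) (E : SimpleGraph (Fin n) → Prop) : ℝ :=
  ∑ G : SimpleGraph (Fin n), if E G then
    p ^ G.edgeSet.ncard * (1 - p) ^ (n.choose 2 - G.edgeSet.ncard) else 0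

/-- Dominator holds D, Staller holds T, Dominator is to move and can force holding a dominating set
within k more turns; she claims up to b free vertices, then Staller claims up to one -/
def Win {n : ℕ} (G : SimpleGraph (Fin n)) (b : ℕ) : ℕ → Finset (Fin n) → Finset (Fin n) → Prop
  | 0, D, _ => ∃ A ⊆ D, Dom G A
  | k + 1, D, T => (∃ A ⊆ D, Dom G A) ∨ ∃ A : Finset (Fin n), A.card ≤ b ∧ Disjoint A (D ∪ T) ∧
      ∀ B : Finset (Fin n), B.card ≤ 1 → Disjoint B (D ∪ A ∪ T) → Win G b k (D ∪ A) (T ∪ B)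

/-- game value when Dominator moves first -/
noncomputable def gMB {n : ℕ} (G : SimpleGraph (Fin n)) (b : ℕ) : ℕ∞ :=
  ⨅ (k : ℕ) (_ : Win G b k ∅ ∅), (k : ℕ∞)

/-- game value when Staller moves first -/
noncomputable def gMB' {n : ℕ} (G : SimpleGraph (Fin n)) (b : ℕ) : ℕ∞ :=
  ⨅ (k : ℕ) (_ : ∀ B : Finset (Fin n), B.card ≤ 1 → Win G b k ∅ B), (k : ℕ∞)

/-- domination number -/
noncomputable def gam {n : ℕ} (G : SimpleGraph (Fin n)) : ℕ := sInf {k | ∃ D, Dom G D ∧ D.card = k}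

open Pool.Agent.H.MP_dfc2f8_pr in
theorem result : ∃ (b : ℕ) (p : ℝ), 1 ≤ b ∧ 0 < p ∧ p < 1 ∧
    ¬ Tendsto (fun n => Pr p n (fun G => gMB G b = gMB' G b ∧
      gMB' G b = (⌈(gam G : ℝ) / b⌉₊ : ℕ))) atTop (nhds 1) := by
  refine ⟨1, 15 / 16, le_rfl, by norm_num, by norm_num, main (fun n G => gMB G 1 = gMB' G 1 ∧
    gMB' G 1 = (⌈(gam G : ℝ) / (1 : ℕ)⌉₊ : ℕ)) (fun n t ht hn G hG e => ?_)⟩
  have k : ∀ k D T, Win G 1 k D T ↔ DW 1 (fun D => ∃ A ⊆ D, Dom G A) k D T := by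
    intro k
    induction k with
    | zero => exact fun _ _ => Iff.rfl
    | succ k ih => intro D T; simp only [Win, DW, ih]
  refine inf_gt (fun j hj c => dw3 (by simpa) ht hG hj ((k _ _ _).1 c)) ((e.1.trans e.2).le.trans ?_)
  obtain ⟨A, a, b⟩ := hG.2.1
  have : gam G ≤ t := Nat.sInf_le ⟨A, b, a⟩
  simpa using this

end Pool.Agent.Results.MP_f1bc00_pr.No
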